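import Pool.Agent.U705.RC.Stm

/-!
# Package GEN of project RC: generation facts
-/

namespace Pool.Agent.U682.RC

open Pool.Agent.U705.RC

variable {A B : Type} [DecidableEq A] {N : ℕ} {F : Multiset A → List A → B}

theorem val_perm {μ : Multiset A} {s s' : List A} (h : s.Perm s') (hv : Val μ s) : Val μ s' :=
  ⟨h.nodup_iff.1 hv.1, fun x => (h.mem_iff).symm.trans (hv.2 x)⟩

/-- permutation of each other and equal values -/
def R (N : ℕ) (F : Multiset A → List A → B) (s s' : List A) : Prop :=
  s.Perm s' ∧ E N F s s'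

theorem R.refl (s : List A) : R N F s s := ⟨List.Perm.refl _, fun _ _ _ => rfl⟩

theorem R.of_eq {s s' : List A} (h : s = s') : R N F s s' := h ▸ R.refl s

theorem R.symm {s s' : List A} (h : R N F s s') : R N F s' s :=
  ⟨h.1.symm, fun μ hμ hv => (h.2 μ hμ (val_perm h.1.symm hv)).symm⟩

theorem R.trans {s s' s'' : List A} (h : R N F s s') (h' : R N F s' s'') : R N F s s'' :=
  ⟨h.1.trans h'.1, fun μ hμ hv => (h.2 μ hμ hv).trans (h'.2 μ hμ (val_perm h.1 hv))⟩

theorem fact1 (H : ∀ (s1 : List A) (x y : A) (s3 : List A),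
    R N F (s1 ++ x :: y :: s3) (s1 ++ y :: x :: s3)) : InvAll N F := by
  have key : ∀ s s' : List A, s.Perm s' → ∀ pre, R N F (pre ++ s) (pre ++ s') := by
    intro s s' h
    induction h with
    | nil => intro pre; exact R.refl _
    | cons x _ ih =>
        intro pre
        have := ih (pre ++ [x])
        simpa using this
    | swap x y l => intro pre; exact H pre y x l
    | trans _ _ ih1 ih2 => intro pre; exact (ih1 pre).trans (ih2 pre)
  intro s s' h
  have := key s s' h []
  exact this.2

theorem fact2 (H : ∀ (x : A) (s2 s3 : List A), R N F (x :: (s2 ++ s3)) (s2 ++ x :: s3)) :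
    InvAll N F := by
  have rot : ∀ p q r : List A, R N F (p ++ q ++ r) (q ++ p ++ r) := by
    intro p
    induction p with
    | nil => intro q r; simpa using R.refl (N := N) (F := F) (q ++ r)
    | cons x p ih =>
        intro q r
        have h1 := H x (p ++ q) r
        have h2 := ih (q ++ [x]) r
        have h3 : R N F (x :: (p ++ q ++ r)) (q ++ [x] ++ p ++ r) :=
          h1.trans ((R.of_eq (by simp)).trans h2)
        exact (R.of_eq (by simp)).trans (h3.trans (R.of_eq (by simp)))
  apply fact1
  intro s1 x y s3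
  have h1 := rot s1 [x, y] s3
  have h2 := H x [y] (s1 ++ s3)
  have h3 := rot [y, x] s1 s3
  have h4 : R N F (s1 ++ [x, y] ++ s3) (y :: x :: (s1 ++ s3)) :=
    h1.trans ((R.of_eq (by simp)).trans (h2.trans (R.of_eq (by simp))))
  exact (R.of_eq (by simp)).trans (h4.trans ((R.of_eq (by simp)).trans
    (h3.trans (R.of_eq (by simp)))))

theorem R_reverse_iff {s s' : List A} :
    R N (fun μ t => F μ t.reverse) s s' ↔ R N F s.reverse s'.reverse := by
  constructor
  · intro h
    refine ⟨(List.reverse_perm s).trans (h.1.trans (List.reverse_perm s').symm), ?_⟩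
    intro μ hμ hv
    exact h.2 μ hμ (val_perm (List.reverse_perm s) hv)
  · intro h
    refine ⟨(List.reverse_perm s).symm.trans (h.1.trans (List.reverse_perm s')), ?_⟩
    intro μ hμ hv
    exact h.2 μ hμ (val_perm (List.reverse_perm s).symm hv)

theorem invAll_of_reverse (h : InvAll N (fun μ t => F μ t.reverse)) : InvAll N F := by
  intro s s' hp
  have h1 : R N (fun μ t => F μ t.reverse) s.reverse s'.reverse := by
    have hp' : s.reverse.Perm s'.reverse :=
      (List.reverse_perm s).trans (hp.trans (List.reverse_perm s').symm)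
    exact ⟨hp', h _ _ hp'⟩
  have h2 := R_reverse_iff.1 h1
  simp only [List.reverse_reverse] at h2
  exact h2.2

theorem fact3 (H : ∀ (x : A) (s1 s2 : List A), R N F (s1 ++ (s2 ++ [x])) (s1 ++ x :: s2)) :
    InvAll N F := by
  apply invAll_of_reverse
  apply fact2
  intro x s2 s3
  rw [R_reverse_iff]
  have := H x s3.reverse s2.reverse
  simpa using this

theorem fact4 (hr : ∀ (x : A) (s : List A), R N F (x :: s) (s ++ [x]))
    (H : ∀ (x y : A) (s : List A), R N F (x :: y :: s) (y :: x :: s)) : InvAll N F := by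
  have rot : ∀ p q : List A, R N F (p ++ q) (q ++ p) := by
    intro p
    induction p with
    | nil => intro q; simpa using R.refl (N := N) (F := F) q
    | cons x p ih =>
        intro q
        have h1 := hr x (p ++ q)
        have h2 := ih (q ++ [x])
        exact (R.of_eq (by simp)).trans (h1.trans ((R.of_eq (by simp)).trans
          (h2.trans (R.of_eq (by simp)))))
  apply fact1
  intro s1 x y s3
  have h1 := rot s1 (x :: y :: s3)
  have h2 := H x y (s3 ++ s1)
  have h3 := rot (y :: x :: s3) s1
  exact h1.trans ((R.of_eq (by simp)).trans (h2.trans ((R.of_eq (by simp)).trans h3)))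

theorem rotR (hr : ∀ (x : A) (s : List A), R N F (x :: s) (s ++ [x])) :
    ∀ p q : List A, R N F (p ++ q) (q ++ p) := by
  intro p
  induction p with
  | nil => intro q; simpa using R.refl (N := N) (F := F) q
  | cons x p ih =>
      intro q
      have h1 := hr x (p ++ q)
      have h2 := ih (q ++ [x])
      exact (R.of_eq (by simp)).trans (h1.trans ((R.of_eq (by simp)).trans
        (h2.trans (R.of_eq (by simp)))))

theorem fact5 (hr : ∀ (x : A) (s : List A), R N F (x :: s) (s ++ [x]))
    (H : ∀ (x y : A) (s : List A), R N F (s ++ [x, y]) (s ++ [y, x])) : InvAll N F := by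
  apply fact4 hr
  intro x y s
  have h1 := rotR hr [x, y] s
  have h3 := rotR hr s [y, x]
  exact (R.of_eq (by simp)).trans (h1.trans ((H x y s).trans (h3.trans (R.of_eq (by simp)))))

theorem fact6 (hr : ∀ (x : A) (s : List A), R N F (x :: s) (s ++ [x]))
    (H : ∀ (z x : A) (s : List A), R N F (z :: x :: s) (z :: (s ++ [x]))) : InvAll N F := by
  apply fact4 hr
  intro z x s
  have h1 := H z x s
  have h2 := rotR hr (z :: s) [x]
  exact h1.trans ((R.of_eq (by simp)).trans (h2.trans (R.of_eq (by simp))))

theorem fact7 (hr : ∀ (x : A) (s : List A), R N F (x :: s) (s ++ [x]))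
    (H : ∀ (x : A) (s : List A) (z : A), R N F (x :: (s ++ [z])) (s ++ [x, z])) :
    InvAll N F := by
  apply fact5 hr
  intro z x s
  have h1 := H x s z
  have h2 := hr x (s ++ [z])
  exact (R.of_eq (by simp)).trans (h2.symm.trans h1)

theorem fact8 (H : ∀ s1 s3 : List A, R N F (s1 ++ s3) (s1.reverse ++ s3)) : InvAll N F := by
  apply fact2
  intro x s2 s3
  have h1 := H (x :: s2) s3
  have h2 := H s2.reverse (x :: s3)
  exact (R.of_eq (by simp)).trans (h1.trans ((R.of_eq (by simp)).trans
    (h2.trans (R.of_eq (by simp)))))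

theorem fact9 (H : ∀ s1 s3 : List A, R N F (s1 ++ s3) (s1 ++ s3.reverse)) : InvAll N F := by
  apply fact3
  intro x s1 s2
  have h1 := H s1 (s2 ++ [x])
  have h2 := H (s1 ++ [x]) s2.reverse
  exact h1.trans ((R.of_eq (by simp)).trans (h2.trans (R.of_eq (by simp))))

theorem t_GEN : S_GEN := by
  intro A B _ N F
  refine ⟨fun H => fact1 ?_, fun H => fact2 ?_, fun H => fact3 ?_, fun hr H => fact4 ?_ ?_,
    fun hr H => fact5 ?_ ?_, fun hr H => fact6 ?_ ?_, fun hr H => fact7 ?_ ?_,
    fun H => fact8 ?_, fun H => fact9 ?_⟩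
  · intro s1 x y s3
    exact ⟨(List.Perm.swap y x s3).append_left s1, H s1 x y s3⟩
  · intro x s2 s3
    exact ⟨List.perm_middle.symm, H x s2 s3⟩
  · intro x s1 s2
    exact ⟨(List.perm_append_singleton x s2).append_left s1, H x s1 s2⟩
  · intro x s; exact ⟨(List.perm_append_singleton x s).symm, hr x s⟩
  · intro x y s; exact ⟨List.Perm.swap y x s, H x y s⟩
  · intro x s; exact ⟨(List.perm_append_singleton x s).symm, hr x s⟩
  · intro x y s; exact ⟨(List.Perm.swap y x []).append_left s, H x y s⟩
  · intro x s; exact ⟨(List.perm_append_singleton x s).symm, hr x s⟩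
  · intro z x s; exact ⟨((List.perm_append_singleton x s).symm).cons z, H z x s⟩
  · intro x s; exact ⟨(List.perm_append_singleton x s).symm, hr x s⟩
  · intro x s z
    refine ⟨?_, H x s z⟩
    exact (List.perm_middle (a := x) (l₁ := s) (l₂ := [z])).symm
  · intro s1 s3; exact ⟨((List.reverse_perm s1).symm).append_right s3, H s1 s3⟩
  · intro s1 s3; exact ⟨((List.reverse_perm s3).symm).append_left s1, H s1 s3⟩

end Pool.Agent.U682.RC
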