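import Pool.Agent.U682.RC.GEN

/-!
# Package TRI of project RC: an element outside a long common sublist
-/

namespace Pool.Agent.U682.RC

open Pool.Agent.U705.RC

theorem exists_map {P A : Type} (x : A) : ∀ (u : List P) (w : List A), u.Nodup →
    u.length = w.length → ∃ l : P → A, u.map l = w := by
  classical
  intro u
  induction u with
  | nil =>
      intro w _ hl
      refine ⟨fun _ => x, ?_⟩
      have : w = [] := List.length_eq_zero_iff.1 (by simpa using hl.symm)
      simp [this]
  | cons z u ih =>
      intro w hn hl
      cases w with
      | nil => simp at hl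
      | cons b w =>
          obtain ⟨l, hl'⟩ := ih w (List.nodup_cons.1 hn).2 (by simpa using hl)
          refine ⟨Function.update l z b, ?_⟩
          have hz : z ∉ u := (List.nodup_cons.1 hn).1
          have : u.map (Function.update l z b) = u.map l := by
            apply List.map_congr_left
            intro a ha
            have : a ≠ z := fun h => hz (h ▸ ha)
            simp [this]
          simp [this, hl']

section

variable {A B : Type} [DecidableEq A] {N : ℕ} {F : Multiset A → List A → B}

theorem transfer {P : Type} {σ τ p m q : List P} {y : P} (hσ : σ.Nodup) (hE : Eqv N F σ τ)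
    (h1 : (p ++ y :: (m ++ q)).Sublist σ) (h2 : (p ++ (m ++ y :: q)).Sublist τ)
    (s1 s2 s3 : List A) (x : A) (l1 : s1.length ≤ p.length) (l2 : s2.length ≤ m.length)
    (l3 : s3.length ≤ q.length) :
    E N F (s1 ++ x :: (s2 ++ s3)) (s1 ++ (s2 ++ x :: s3)) := by
  obtain ⟨u1, hu1⟩ : ∃ u, u = p.take s1.length := ⟨_, rfl⟩
  obtain ⟨u2, hu2⟩ : ∃ u, u = m.take s2.length := ⟨_, rfl⟩
  obtain ⟨u3, hu3⟩ : ∃ u, u = q.take s3.length := ⟨_, rfl⟩
  have e1 : u1.length = s1.length := by rw [hu1, List.length_take]; omega
  have e2 : u2.length = s2.length := by rw [hu2, List.length_take]; omega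
  have e3 : u3.length = s3.length := by rw [hu3, List.length_take]; omega
  have q1 : u1.Sublist p := hu1 ▸ List.take_sublist _ _
  have q2 : u2.Sublist m := hu2 ▸ List.take_sublist _ _
  have q3 : u3.Sublist q := hu3 ▸ List.take_sublist _ _
  have a1 : (u1 ++ y :: (u2 ++ u3)).Sublist σ :=
    (q1.append ((q2.append q3).cons_cons y)).trans h1
  have a2 : (u1 ++ (u2 ++ y :: u3)).Sublist τ :=
    (q1.append (q2.append (q3.cons_cons y))).trans h2
  obtain ⟨l, hl⟩ := exists_map x (u1 ++ y :: (u2 ++ u3)) (s1 ++ x :: (s2 ++ s3))
    (hσ.sublist a1) (by simp [e1, e2, e3])
  have hp : (u1 ++ y :: (u2 ++ u3)).Perm (u1 ++ (u2 ++ y :: u3)) :=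
    (List.perm_middle.symm).append_left u1
  have key := hE _ _ a1 a2 hp l
  rw [hl] at key
  rw [List.map_append, List.map_cons, List.map_append] at hl
  have c1 := List.append_inj hl (by simp [e1])
  have c2 := List.cons_eq_cons.1 c1.2
  have c3 := List.append_inj c2.2 (by simp [e2])
  rw [List.map_append, List.map_append, List.map_cons, c1.1, c2.1, c3.1, c3.2] at key
  exact key

theorem E_of_length [Fintype A] {s s' : List A}
    (h : s.length ≤ Fintype.card A → E N F s s') : E N F s s' := by
  intro μ hμ hv
  exact h hv.1.length_le_card μ hμ hv

theorem E_symm {s s' : List A} (hp : s.Perm s') (h : E N F s s') : E N F s' s :=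
  (R.symm ⟨hp, h⟩ : R N F s' s).2

theorem Eqv_symm {P : Type} {σ τ : List P} (h : Eqv N F σ τ) : Eqv N F τ σ := by
  intro u u' hu hu' hp l
  exact E_symm ((hp.symm).map l) (h u' u hu' hu hp.symm l)

theorem tri_aux [Fintype A] {P : Type} {σ τ p m q : List P} {y : P} (hσ : σ.Nodup)
    (hE : Eqv N F σ τ) (hA : ¬ InvAll N F)
    (hL : 4 * Fintype.card A + 4 ≤ p.length + m.length + q.length)
    (h1 : (p ++ y :: (m ++ q)).Sublist σ) (h2 : (p ++ (m ++ y :: q)).Sublist τ)
    (hm : m.length ≠ 0) :
    (¬ InvRot N F ∧ (p ++ m).length < 2 * Fintype.card A) ∨
    (¬ InvRot N F ∧ (m ++ q).length < 2 * Fintype.card A) ∨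
    (InvRot N F ∧ p = [] ∧ q = []) := by
  have T := fun (s1 s2 s3 : List A) (x : A) l1 l2 l3 =>
    transfer (F := F) (N := N) hσ hE h1 h2 s1 s2 s3 x l1 l2 l3
  obtain ⟨g1, g2, g3, g4, g5, g6, g7, _, _⟩ := t_GEN A B N F
  by_cases hp : p.length < Fintype.card A
  · by_cases hq : q.length < Fintype.card A
    · -- case (b)
      have hrot : InvRot N F := by
        intro x s
        apply E_of_length
        intro hs
        simp only [List.length_cons] at hs
        have := T [] s [] x (by simp) (by omega) (by simp)
        simpa using this
      right; right
      refine ⟨hrot, ?_, ?_⟩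
      · by_contra hne
        apply hA
        apply g6 hrot
        intro z x s
        apply E_of_length
        intro hs
        simp only [List.length_cons] at hs
        have hpl : 0 < p.length := List.length_pos_iff.2 hne
        have := T [z] s [] x (by simp only [List.length_cons, List.length_nil]; omega) (by omega) (by simp)
        simpa using this
      · by_contra hne
        apply hA
        apply g7 hrot
        intro x s z
        apply E_of_length
        intro hs
        simp only [List.length_cons, List.length_append, List.length_nil] at hs
        have hpl : 0 < q.length := List.length_pos_iff.2 hne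
        have := T [] s [z] x (by simp) (by omega) (by simp only [List.length_cons, List.length_nil]; omega)
        simpa using this
    · -- case (c)
      have hm' : m.length < Fintype.card A := by
        by_contra hcon
        apply hA
        apply g2
        intro x s2 s3
        apply E_of_length
        intro hs
        simp only [List.length_cons, List.length_append] at hs
        have := T [] s2 s3 x (by simp) (by omega) (by omega)
        simpa using this
      have hrot : ¬ InvRot N F := by
        intro hrot
        apply hA
        apply g4 hrot
        intro x z s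
        apply E_of_length
        intro hs
        simp only [List.length_cons] at hs
        have := T [] [z] s x (by simp) (by simp; omega) (by omega)
        simpa using this
      left
      refine ⟨hrot, ?_⟩
      rw [List.length_append]; omega
  · by_cases hq : q.length < Fintype.card A
    · -- case (d)
      have hm' : m.length < Fintype.card A := by
        by_contra hcon
        apply hA
        apply g3
        intro x s1 s2
        apply E_of_length
        intro hs
        simp only [List.length_append, List.length_cons, List.length_nil] at hs
        have := T s1 s2 [] x (by omega) (by omega) (by simp)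
        refine E_symm ((List.perm_append_singleton x s2).symm.append_left s1) ?_
        simpa using this
      have hrot : ¬ InvRot N F := by
        intro hrot
        apply hA
        apply g5 hrot
        intro x z s
        apply E_of_length
        intro hs
        simp only [List.length_append, List.length_cons, List.length_nil] at hs
        have := T s [z] [] x (by omega) (by simp; omega) (by simp)
        simpa using this
      right; left
      refine ⟨hrot, ?_⟩
      rw [List.length_append]; omega
    · -- case (a)
      exfalso
      apply hA
      apply g1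
      intro s1 x z s3
      apply E_of_length
      intro hs
      simp only [List.length_append, List.length_cons] at hs
      have := T s1 [z] s3 x (by omega) (by simp; omega) (by omega)
      simpa using this

end

theorem t_TRI0 : S_TRI := by
  intro A B _ _ N F P σ τ L p q p' q' y hσ hτ hE hA hL e e' h1 h2 hne
  rcases List.append_eq_append_iff.1 (e.symm.trans e') with ⟨m, hm1, hm2⟩ | ⟨m, hm1, hm2⟩
  · -- p' = p ++ m, q = m ++ q'
    subst hm1 hm2
    have hm : m.length ≠ 0 := by
      intro h0
      apply hne
      simp [h0]
    have hLl : 4 * Fintype.card A + 4 ≤ p.length + m.length + q'.length := by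
      rw [e'] at hL
      simp only [List.length_append] at hL
      omega
    have h2' : (p ++ (m ++ y :: q')).Sublist τ := by simpa [List.append_assoc] using h2
    rcases tri_aux hσ hE hA hLl h1 h2' hm with ⟨a, b⟩ | ⟨a, b⟩ | ⟨a, b, c⟩
    · left
      refine ⟨a, ?_, b⟩
      rw [List.length_append] at b; omega
    · right; left
      refine ⟨a, b, ?_⟩
      rw [List.length_append] at b; omega
    · right; right
      exact ⟨a, Or.inl ⟨b, c⟩⟩
  · -- p = p' ++ m, q' = m ++ q
    subst hm1 hm2
    have hm : m.length ≠ 0 := by
      intro h0
      apply hne
      simp [h0]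
    have hLl : 4 * Fintype.card A + 4 ≤ p'.length + m.length + q.length := by
      rw [e] at hL
      simp only [List.length_append] at hL
      omega
    have h1' : (p' ++ (m ++ y :: q)).Sublist σ := by simpa [List.append_assoc] using h1
    rcases tri_aux hτ (Eqv_symm hE) hA hLl h2 h1' hm with ⟨a, b⟩ | ⟨a, b⟩ | ⟨a, b, c⟩
    · left
      refine ⟨a, b, ?_⟩
      rw [List.length_append] at b; omega
    · right; left
      refine ⟨a, ?_, b⟩
      rw [List.length_append] at b; omega
    · right; right
      exact ⟨a, Or.inr ⟨b, c⟩⟩

theorem t_TRI : S_GEN → S_TRI := fun _ => t_TRI0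

end Pool.Agent.U682.RC
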